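import Pool.Agent.Helper99.GL.FSpec

/-!
Swarm `GL` (MP_a31c1c_an, frozen S05669), part F09: flow discs versus plaques.
-/

set_option autoImplicit false

open Metric Set Filter Topology

namespace Pool.GL.Helper38

/-- quantitative inverse function for a primitive of `g` -/
lemma inv_disc (a : ℂ) (η τ : ℝ) (hη : 0 < η) (hτ : 0 < τ) (g : ℂ → ℂ)
    (hg : DifferentiableOn ℂ g (ball a η)) (hga : ‖g a‖ = τ)
    (hgs : ∀ s ∈ ball a η, ‖g s - g a‖ ≤ τ / 2) :
    ∃ Θ S : ℂ → ℂ, (∀ s ∈ ball a η, ‖Θ s‖ ≤ 3 / 2 * τ * ‖s - a‖) ∧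
      (∀ s ∈ ball a η, ‖Θ s‖ < τ * η / 2 → S (Θ s) = s) ∧ S 0 = a ∧
      ∀ t : ℂ, ‖t‖ < τ * η / 2 → S t ∈ ball a η ∧ Θ (S t) = t ∧
        HasDerivAt S (g (S t))⁻¹ t := by
  classical
  obtain ⟨Θ, hΘa, hΘ⟩ := (hg.isExactOn_ball).with_val_at a 0
  have haη : a ∈ ball a η := mem_ball_self hη
  have hlip : ∀ s ∈ ball a η, ∀ s' ∈ ball a η,
      ‖Θ s - Θ s' - g a * (s - s')‖ ≤ τ / 2 * ‖s - s'‖ := by
    intro s hs s' hs'
    have h1 := (convex_ball a η).norm_image_sub_le_of_norm_hasDerivWithin_le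
      (f := fun x => Θ x - g a * x) (f' := fun x => g x - g a * 1) (C := τ / 2)
      (fun x hx => ((hΘ x hx).sub ((hasDerivAt_id x).const_mul (g a))).hasDerivWithinAt)
      (fun x hx => by simpa using hgs x hx) hs' hs
    have h2 : (fun x => Θ x - g a * x) s - (fun x => Θ x - g a * x) s' =
        Θ s - Θ s' - g a * (s - s') := by
      simp only []
      ring
    rw [h2] at h1
    exact h1
  have hlow : ∀ s ∈ ball a η, ∀ s' ∈ ball a η, τ / 2 * ‖s - s'‖ ≤ ‖Θ s - Θ s'‖ := by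
    intro s hs s' hs'
    have h1 := hlip s hs s' hs'
    have h2 : ‖g a * (s - s')‖ = τ * ‖s - s'‖ := by rw [norm_mul, hga]
    have h3 : ‖g a * (s - s')‖ ≤ ‖Θ s - Θ s'‖ + ‖Θ s - Θ s' - g a * (s - s')‖ := by
      have := norm_sub_le (Θ s - Θ s') (Θ s - Θ s' - g a * (s - s'))
      simpa using this
    linarith
  have hinj : ∀ s ∈ ball a η, ∀ s' ∈ ball a η, Θ s = Θ s' → s = s' := by
    intro s hs s' hs' h
    have h1 := hlow s hs s' hs'
    rw [h, sub_self, norm_zero] at h1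
    have h2 : ‖s - s'‖ ≤ 0 := by
      by_contra hcon
      push Not at hcon
      have : 0 < τ / 2 * ‖s - s'‖ := by positivity
      linarith
    exact sub_eq_zero.mp (norm_le_zero_iff.mp h2)
  have hsurj : ∀ t : ℂ, ‖t‖ < τ * η / 2 → ∃ s ∈ ball a η, Θ s = t := by
    intro t ht
    have happ : ApproximatesLinearOn Θ (ContinuousLinearMap.mul ℂ ℂ (g a)) (ball a η)
        (⟨τ / 2, by positivity⟩ : NNReal) := by
      intro x hx y hy
      exact hlip x hx y hy
    have hga0 : g a ≠ 0 := by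
      intro h
      rw [h, norm_zero] at hga
      linarith
    let R : (ContinuousLinearMap.mul ℂ ℂ (g a)).NonlinearRightInverse :=
      { toFun := fun y => y / g a
        nnnorm := ⟨τ⁻¹, by positivity⟩
        bound' := by
          intro y
          rw [norm_div, hga, div_eq_inv_mul]
          exact le_refl _
        right_inv' := by
          intro y
          simp only [ContinuousLinearMap.mul_apply']
          field_simp }
    have hρ : 0 ≤ 2 * ‖t‖ / τ := by positivity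
    have hρη : 2 * ‖t‖ / τ < η := by
      rw [div_lt_iff₀ hτ]
      linarith [mul_comm τ η]
    have h1 := happ.surjOn_closedBall_of_nonlinearRightInverse R (b := a) hρ
      (closedBall_subset_ball hρη)
    have h2 : t ∈ closedBall (Θ a) (((R.nnnorm : ℝ)⁻¹ - ((⟨τ / 2, by positivity⟩ : NNReal) : ℝ)) *
        (2 * ‖t‖ / τ)) := by
      rw [hΘa, mem_closedBall, dist_zero_right]
      have h3 : (R.nnnorm : ℝ) = τ⁻¹ := rfl
      rw [h3]
      rw [inv_inv]
      have h4 : (τ - τ / 2) * (2 * ‖t‖ / τ) = ‖t‖ := by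
        field_simp
        ring
      exact h4.ge
    obtain ⟨s, hs, hst⟩ := h1 h2
    exact ⟨s, closedBall_subset_ball hρη hs, hst⟩
  let S : ℂ → ℂ := fun t => if h : ‖t‖ < τ * η / 2 then Classical.choose (hsurj t h) else 0
  have hS : ∀ t : ℂ, ‖t‖ < τ * η / 2 → S t ∈ ball a η ∧ Θ (S t) = t := by
    intro t ht
    have h1 : S t = Classical.choose (hsurj t ht) := dif_pos ht
    rw [h1]
    exact Classical.choose_spec (hsurj t ht)
  have hSΘ : ∀ s ∈ ball a η, ‖Θ s‖ < τ * η / 2 → S (Θ s) = s := by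
    intro s hs hs2
    exact hinj _ (hS _ hs2).1 _ hs (hS _ hs2).2
  refine ⟨Θ, S, ?_, hSΘ, ?_, ?_⟩
  · intro s hs
    have h1 := hlip s hs a haη
    rw [hΘa, sub_zero] at h1
    have h2 : ‖g a * (s - a)‖ = τ * ‖s - a‖ := by rw [norm_mul, hga]
    have h3 : ‖Θ s‖ ≤ ‖Θ s - g a * (s - a)‖ + ‖g a * (s - a)‖ := by
      have := norm_add_le (Θ s - g a * (s - a)) (g a * (s - a))
      simpa using this
    linarith
  · have h0 : ‖Θ a‖ < τ * η / 2 := by
      rw [hΘa, norm_zero]; positivity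
    have := hSΘ a haη h0
    rwa [hΘa] at this
  · intro t ht
    refine ⟨(hS t ht).1, (hS t ht).2, ?_⟩
    have hnear : ∀ᶠ y in 𝓝 t, ‖y‖ < τ * η / 2 := by
      have : Continuous fun y : ℂ => ‖y‖ := continuous_norm
      exact this.continuousAt.eventually (gt_mem_nhds ht)
    have hcont : ContinuousAt S t := by
      rw [Metric.continuousAt_iff]
      intro ε hε
      have h3 : ∀ᶠ y in 𝓝 t, ‖y‖ < τ * η / 2 ∧ dist y t < τ / 2 * ε :=
        hnear.and (Metric.ball_mem_nhds t (by positivity))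
      obtain ⟨δ, hδ, hδ2⟩ := Metric.eventually_nhds_iff.mp h3
      refine ⟨δ, hδ, ?_⟩
      intro y hy
      obtain ⟨hy1, hy2⟩ := hδ2 hy
      have h4 := hlow _ (hS y hy1).1 _ (hS t ht).1
      rw [(hS y hy1).2, (hS t ht).2, ← dist_eq_norm, ← dist_eq_norm] at h4
      by_contra hcon
      push Not at hcon
      have h5 : τ / 2 * ε ≤ τ / 2 * dist (S y) (S t) :=
        mul_le_mul_of_nonneg_left hcon (by positivity)
      linarith
    have hgne : g (S t) ≠ 0 := by
      intro h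
      have h6 := hgs _ (hS t ht).1
      rw [h, zero_sub, norm_neg, hga] at h6
      linarith
    exact HasDerivAt.of_local_left_inverse hcont (hΘ _ (hS t ht).1) hgne
      (hnear.mono fun y hy => (hS y hy).2)

/-- derivative of the chart at infinity along a solution -/
lemma aff_deriv (hC : S_CHART) (F : Fld) (hd : 2 ≤ F.d) (hP : F.P.totalDegree ≤ F.d)
    (hQ : F.Q.totalDegree ≤ F.d) (ζ : ℂ → ℂ) (s : ℂ) (hz : ζ s ≠ 0)
    (hB : F.inf.B s (ζ s) ≠ 0)
    (hζ : HasDerivAt ζ (ζ s * F.inf.A s (ζ s) / F.inf.B s (ζ s)) s) :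
    HasDerivAt (fun s => aff s (ζ s))
      ((ζ s ^ (F.d - 1) / F.inf.B s (ζ s)) • F.W (aff s (ζ s))) s := by
  obtain ⟨h1, h2⟩ := hC F hP hQ s (ζ s) hz
  have hpow : ζ s ^ F.d = ζ s ^ (F.d - 1) * ζ s := by
    rw [← pow_succ]
    congr 1
    omega
  have hd1 : HasDerivAt (fun s => (1 : ℂ) / ζ s)
      ((ζ s ^ (F.d - 1) / F.inf.B s (ζ s)) * (F.W (aff s (ζ s))).1) s := by
    have h3 := hζ.inv hz
    have h4 : (fun s => (1 : ℂ) / ζ s) = ζ⁻¹ := by
      funext x
      simp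
    rw [h4]
    refine h3.congr_deriv ?_
    rw [hpow] at h1
    have h5 : ζ s * (ζ s ^ (F.d - 1) * (F.W (aff s (ζ s))).1) = - F.inf.A s (ζ s) := by
      rw [← h1]; ring
    symm
    rw [div_mul_eq_mul_div, div_eq_div_iff hB (pow_ne_zero 2 hz)]
    have h6 : ζ s * F.inf.A s (ζ s) / F.inf.B s (ζ s) * F.inf.B s (ζ s) =
      ζ s * F.inf.A s (ζ s) := div_mul_cancel₀ _ hB
    linear_combination ζ s * h5 + h6
  have hd2 : HasDerivAt (fun s => s / ζ s)
      ((ζ s ^ (F.d - 1) / F.inf.B s (ζ s)) * (F.W (aff s (ζ s))).2) s := by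
    have h3 := (hasDerivAt_id s).div hζ hz
    refine h3.congr_deriv ?_
    rw [hpow] at h2
    have h5 : ζ s * (ζ s ^ (F.d - 1) * (F.W (aff s (ζ s))).2) =
        F.inf.B s (ζ s) - s * F.inf.A s (ζ s) := by
      rw [← h2]; ring
    have h6 : ζ s * F.inf.A s (ζ s) / F.inf.B s (ζ s) * F.inf.B s (ζ s) =
      ζ s * F.inf.A s (ζ s) := div_mul_cancel₀ _ hB
    symm
    rw [div_mul_eq_mul_div, div_eq_div_iff hB (pow_ne_zero 2 hz)]
    change _ = (1 * ζ s - s * (ζ s * F.inf.A s (ζ s) / F.inf.B s (ζ s))) * F.inf.B s (ζ s)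
    linear_combination ζ s * h5 + s * h6
  have := hd1.prodMk hd2
  exact this

lemma B_diff (I : Inf) (ζ : ℂ → ℂ) (N : Set ℂ) (hζ : DifferentiableOn ℂ ζ N) :
    DifferentiableOn ℂ (fun s => I.B s (ζ s)) N := by
  unfold Inf.B
  refine DifferentiableOn.fun_sum ?_
  intro m _
  exact (hζ.pow m).mul (Polynomial.differentiable (I.b m)).differentiableOn

theorem geo_thm (hC : S_CHART) : S_GEO := by
  intro F hd hP hQ p T hT a η δ ζ hL z hz0 hzδ x hx τ hτdef hτ1
  have hη := hL.η_pos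
  have haη : a ∈ ball a η := mem_ball_self hη
  have hz : z ≠ 0 := norm_pos_iff.mp hz0
  have hsol := hL.sol z hzδ
  have hζa : ζ a z = z := hL.init z hzδ
  have hBa : F.inf.B a z ≠ 0 := by
    have := (hsol a haη).1
    simpa [hζa] using this
  have hζne : ∀ s ∈ ball a η, ζ s z ≠ 0 := by
    intro s hs h
    have := (hL.size s hs z hzδ).1
    rw [h, norm_zero] at this
    linarith
  have hτ : 0 < τ := by
    rw [hτdef]
    have : 0 < ‖F.inf.B a z‖ := norm_pos_iff.mpr hBa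
    positivity
  set g : ℂ → ℂ := fun s => ζ s z ^ (F.d - 1) / F.inf.B s (ζ s z) with hgdef
  have hζd : DifferentiableOn ℂ (fun s => ζ s z) (ball a η) :=
    fun s hs => (hsol s hs).2.differentiableAt.differentiableWithinAt
  have hgd : DifferentiableOn ℂ g (ball a η) :=
    (hζd.pow (F.d - 1)).div (B_diff F.inf _ _ hζd) (fun s hs => (hsol s hs).1)
  have hga : ‖g a‖ = τ := by
    rw [hgdef, hτdef]
    simp only [hζa, norm_div, norm_pow]
  have hgs : ∀ s ∈ ball a η, ‖g s - g a‖ ≤ τ / 2 := by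
    intro s hs
    have hsp := hL.speed s hs z hzδ
    have hBs : F.inf.B s (ζ s z) ≠ 0 := (hsol s hs).1
    have hd' : F.inf.d = F.d := rfl
    rw [hd'] at hsp
    have h1 : g s - g a = (ζ s z ^ (F.d - 1) * F.inf.B a z - z ^ (F.d - 1) * F.inf.B s (ζ s z)) /
        (F.inf.B s (ζ s z) * F.inf.B a z) := by
      rw [hgdef]
      simp only [hζa]
      rw [div_sub_div _ _ hBs hBa]
      congr 1
      ring
    rw [h1, norm_div, hτdef, norm_mul]
    have hn1 : 0 < ‖F.inf.B s (ζ s z)‖ := norm_pos_iff.mpr hBs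
    have hn2 : 0 < ‖F.inf.B a z‖ := norm_pos_iff.mpr hBa
    rw [div_le_iff₀ (by positivity)]
    refine hsp.trans (le_of_eq ?_)
    rw [norm_mul, norm_pow]
    field_simp
  obtain ⟨Θ, S, hΘ1, hSΘ, hS0, hS⟩ := inv_disc a η τ hη hτ g hgd hga hgs
  set φ : ℂ → ℂ × ℂ := fun t => aff (S t) (ζ (S t) z) with hφ
  have hr : 0 < τ * η / 2 := by positivity
  have hint : F.IsInt φ (τ * η / 2) := by
    intro t ht
    rw [mem_ball, dist_zero_right] at ht
    obtain ⟨hS1, hS2, hS3⟩ := hS t ht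
    have h1 := aff_deriv hC F hd hP hQ (fun s => ζ s z) (S t) (hζne _ hS1) (hsol _ hS1).1
      (hsol _ hS1).2
    have h2 := h1.scomp t hS3
    have h3 : (g (S t))⁻¹ • ((ζ (S t) z ^ (F.d - 1) / F.inf.B (S t) (ζ (S t) z)) •
        F.W (aff (S t) (ζ (S t) z))) = F.W (φ t) := by
      rw [smul_smul]
      have hgne : g (S t) ≠ 0 := by
        intro h
        have h6 := hgs _ hS1
        rw [h, zero_sub, norm_neg, hga] at h6
        linarith
      have h4 : (g (S t))⁻¹ * (ζ (S t) z ^ (F.d - 1) / F.inf.B (S t) (ζ (S t) z)) = 1 :=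
        inv_mul_cancel₀ hgne
      rw [h4, one_smul]
    rw [← h3]
    exact h2
  have hφ0 : φ 0 = (x : ℂ × ℂ) := by
    rw [hφ, hx]
    simp only [hS0, hζa]
  have hφinj : InjOn φ (ball (0 : ℂ) (τ * η / 2)) := by
    intro t ht t' ht' h
    rw [mem_ball, dist_zero_right] at ht ht'
    have hne := hζne _ (hS t ht).1
    have hne' := hζne _ (hS t' ht').1
    simp only [hφ, aff, Prod.mk.injEq] at h
    obtain ⟨h1, h2⟩ := h
    have h3 : ζ (S t) z = ζ (S t') z := by
      rw [one_div, one_div] at h1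
      exact inv_injective h1
    rw [h3] at h2
    have h4 : S t = S t' := by
      rwa [div_left_inj' hne'] at h2
    rw [← (hS t ht).2.1, ← (hS t' ht').2.1, h4]
  obtain ⟨hmax1, hmax2⟩ := hT.max x φ (τ * η / 2) hr hτ1 hint hφ0 hφinj
  refine ⟨hmax1, ?_, ?_⟩
  · intro t ht
    exact ⟨S t, (hS t ht).1, hmax2 t (by rwa [mem_ball, dist_zero_right])⟩
  · intro s hs
    have hsη : s ∈ ball a η := ball_subset_ball (by linarith) hs
    rw [mem_ball, dist_eq_norm] at hs
    have h1 := hΘ1 s hsη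
    have h2 : 3 / 2 * τ * ‖s - a‖ ≤ 3 / 2 * τ * (η / 96) :=
      mul_le_mul_of_nonneg_left hs.le (by positivity)
    have h3 : 3 / 2 * τ * (η / 96) = τ * η / 64 := by ring
    have h4 : ‖Θ s‖ ≤ τ * η / 64 := by linarith
    have h5 : ‖Θ s‖ < τ * η / 2 := by
      have : 0 < τ * η := by positivity
      linarith
    refine ⟨Θ s, h4, ?_⟩
    have h6 := hmax2 (Θ s) (by rwa [mem_ball, dist_zero_right])
    rw [h6, hφ]
    simp only [hSΘ s hsη h5]

end Pool.GL.Helper38
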